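import Mathlib

set_option autoImplicit false

/-!
Group theoretic part: towers of open subgroups `U (i + 1) = ` stabiliser of a point in a
continuous surjective action of `U i` on a finite set through the full symmetric group.
-/

namespace Pool.Agent.H49R3.SC

open Set

section defs

variable {G : Type*} [Group G]

/-- `f` is a homomorphism on the subgroup `U`. -/
def HomOn {B : Type*} [Group B] (U : Subgroup G) (f : G → B) : Prop :=
  ∀ u ∈ U, ∀ v ∈ U, f (u * v) = f u * f v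

/-- `V` is the stabiliser of a point under a continuous surjective homomorphism `U → S_n`. -/
def SymStep [TopologicalSpace G] (U V : Subgroup G) (n : ℕ) : Prop :=
  ∃ p : G → Equiv.Perm (Fin n), HomOn U p ∧ IsOpen {u | u ∈ U ∧ p u = 1} ∧
    (∀ σ, ∃ u ∈ U, p u = σ) ∧ ∃ j : Fin n, ∀ u, u ∈ V ↔ u ∈ U ∧ p u j = j

theorem HomOn.one {B : Type*} [Group B] {U : Subgroup G} {f : G → B} (h : HomOn U f) :
    f 1 = 1 := by
  have := h 1 U.one_mem 1 U.one_mem
  rw [mul_one] at this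
  exact (mul_eq_left.mp this.symm)

theorem HomOn.inv {B : Type*} [Group B] {U : Subgroup G} {f : G → B} (h : HomOn U f) {u : G}
    (hu : u ∈ U) : f u⁻¹ = (f u)⁻¹ := by
  have := h u⁻¹ (U.inv_mem hu) u hu
  rw [inv_mul_cancel, h.one] at this
  exact (eq_inv_of_mul_eq_one_left this.symm)

theorem HomOn.mono {B : Type*} [Group B] {U V : Subgroup G} {f : G → B} (h : HomOn U f)
    (hV : V ≤ U) : HomOn V f := fun u hu v hv => h u (hV hu) v (hV hv)

theorem SymStep.le [TopologicalSpace G] {U V : Subgroup G} {n : ℕ} (h : SymStep U V n) : V ≤ U := by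
  obtain ⟨p, -, -, -, j, hj⟩ := h
  exact fun u hu => ((hj u).1 hu).1

end defs

section trans

/-- A nontrivial normal set of permutations is transitive. -/
theorem normal_trans {n : ℕ} (S : Set (Equiv.Perm (Fin n))) (hmul : ∀ a ∈ S, ∀ b ∈ S, a * b ∈ S)
    (hconj : ∀ a ∈ S, ∀ σ : Equiv.Perm (Fin n), σ * a * σ⁻¹ ∈ S)
    (w : Equiv.Perm (Fin n)) (hw : w ∈ S) (hw1 : w ≠ 1) (h1 : (1 : Equiv.Perm (Fin n)) ∈ S)
    (hinv : ∀ a ∈ S, a⁻¹ ∈ S) (c d : Fin n) : ∃ s ∈ S, s c = d := by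
  classical
  obtain ⟨a, ha⟩ : ∃ a, w a ≠ a := by
    by_contra hcon
    push Not at hcon
    exact hw1 (Equiv.ext hcon)
  have key : ∀ x : Fin n, ∃ s ∈ S, s a = x := by
    intro x
    by_cases hxa : x = a
    · exact ⟨1, h1, by rw [hxa]; rfl⟩
    · refine ⟨Equiv.swap (w a) x * w * (Equiv.swap (w a) x)⁻¹, hconj w hw _, ?_⟩
      rw [Equiv.swap_inv, Equiv.Perm.mul_apply, Equiv.Perm.mul_apply,
        Equiv.swap_apply_of_ne_of_ne (Ne.symm ha) (Ne.symm hxa), Equiv.swap_apply_left]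
  obtain ⟨s, hs, hsc⟩ := key c
  obtain ⟨t, ht, htd⟩ := key d
  refine ⟨t * s⁻¹, hmul t ht _ (hinv s hs), ?_⟩
  rw [Equiv.Perm.mul_apply, ← hsc]; simpa using htd

end trans

section step

variable {G : Type*} [Group G] [TopologicalSpace G]

theorem SymStep.surj {B : Type*} [Group B] [Finite B] {U V : Subgroup G} {n : ℕ}
    (h : SymStep U V n) (hn : Nat.card B < n) {θ : G → B} (hθ : HomOn U θ)
    (u : G) (hu : u ∈ U) : ∃ v ∈ V, θ v = θ u := by
  classical
  obtain ⟨p, hp, -, hps, j, hj⟩ := h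
  -- the image of the kernel of `θ`
  let S : Set (Equiv.Perm (Fin n)) := {σ | ∃ w ∈ U, θ w = 1 ∧ p w = σ}
  by_cases hS : ∃ w ∈ S, w ≠ 1
  · obtain ⟨w, hw, hw1⟩ := hS
    have htr := normal_trans S (by
      rintro a ⟨x, hx, hx1, rfl⟩ b ⟨y, hy, hy1, rfl⟩
      exact ⟨x * y, U.mul_mem hx hy, by rw [hθ x hx y hy, hx1, hy1, one_mul], hp x hx y hy⟩)
      (by
        rintro a ⟨x, hx, hx1, rfl⟩ σ
        obtain ⟨u, hu, rfl⟩ := hps σ
        have hui := U.inv_mem hu
        refine ⟨u * x * u⁻¹, U.mul_mem (U.mul_mem hu hx) hui, ?_, ?_⟩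
        · rw [hθ _ (U.mul_mem hu hx) _ hui, hθ u hu x hx, hx1, hθ.inv hu, mul_one, mul_inv_cancel]
        · rw [hp _ (U.mul_mem hu hx) _ hui, hp u hu x hx, hp.inv hu])
      w hw hw1 ⟨1, U.one_mem, hθ.one, hp.one⟩
      (by
        rintro a ⟨x, hx, hx1, rfl⟩
        exact ⟨x⁻¹, U.inv_mem hx, by rw [hθ.inv hx, hx1, inv_one], hp.inv hx⟩)
    obtain ⟨_, ⟨x, hx, hx1, rfl⟩, hxj⟩ := htr (p u j) j
    refine ⟨x * u, (hj _).2 ⟨U.mul_mem hx hu, ?_⟩, ?_⟩
    · rw [hp x hx u hu, Equiv.Perm.mul_apply, hxj]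
    · rw [hθ x hx u hu, hx1, one_mul]
  · exfalso
    push Not at hS
    -- `S_n` is a quotient of `B`
    have hsurj : Function.Surjective (fun b : B => if hb : ∃ u ∈ U, θ u = b then
        p (Classical.choose hb) else 1) := by
      intro σ
      obtain ⟨u, hu, rfl⟩ := hps σ
      refine ⟨θ u, ?_⟩
      have hb : ∃ u' ∈ U, θ u' = θ u := ⟨u, hu, rfl⟩
      simp only [dif_pos hb]
      obtain ⟨hc1, hc2⟩ := Classical.choose_spec hb
      set c := Classical.choose hb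
      have h1 : (p c)⁻¹ * p u = 1 := by
        apply hS
        refine ⟨c⁻¹ * u, U.mul_mem (U.inv_mem hc1) hu, ?_, ?_⟩
        · rw [hθ _ (U.inv_mem hc1) u hu, hθ.inv hc1, hc2, inv_mul_cancel]
        · rw [hp _ (U.inv_mem hc1) u hu, hp.inv hc1]
      exact (inv_mul_eq_one.mp h1)
    have h2 := Nat.card_le_card_of_surjective _ hsurj
    rw [Nat.card_perm, Nat.card_fin] at h2
    have := Nat.self_le_factorial n
    omega

variable [IsTopologicalGroup G]

theorem isOpen_fiber {B : Type*} [Group B] {U : Subgroup G} {θ : G → B} (hθ : HomOn U θ)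
    (ho : IsOpen {u | u ∈ U ∧ θ u = 1}) (S : Set B) : IsOpen {x | x ∈ U ∧ θ x ∈ S} := by
  rw [isOpen_iff_mem_nhds]
  rintro x ⟨hx, hxS⟩
  have h1 : IsOpen ((fun y : G => x⁻¹ * y) ⁻¹' {u | u ∈ U ∧ θ u = 1}) :=
    ho.preimage (continuous_const.mul continuous_id)
  refine Filter.mem_of_superset (h1.mem_nhds ?_) ?_
  · simp only [mem_preimage, inv_mul_cancel, mem_ofPred_eq]
    exact ⟨U.one_mem, hθ.one⟩
  · rintro y ⟨hy1, hy2⟩
    have e : y = x * (x⁻¹ * y) := by group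
    refine ⟨by rw [e]; exact U.mul_mem hx hy1, ?_⟩
    rw [e, hθ x hx _ hy1, hy2, mul_one]
    exact hxS

theorem isClosed_fiber {B : Type*} [Group B] {U : Subgroup G} {θ : G → B} (hθ : HomOn U θ)
    (hU : IsOpen (U : Set G)) (ho : IsOpen {u | u ∈ U ∧ θ u = 1}) (S : Set B) :
    IsClosed {x | x ∈ U ∧ θ x ∈ S} := by
  have hUc : IsClosed (U : Set G) := U.isClosed_of_isOpen hU
  have h1 := isOpen_fiber hθ ho Sᶜ
  have e : {x | x ∈ U ∧ θ x ∈ S} = (U : Set G) ∩ {x | x ∈ U ∧ θ x ∈ Sᶜ}ᶜ := by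
    ext x
    simp only [mem_ofPred_eq, mem_inter_iff, SetLike.mem_coe, mem_compl_iff, not_and, not_not]
    constructor
    · rintro ⟨a, b⟩; exact ⟨a, fun _ => b⟩
    · rintro ⟨a, b⟩; exact ⟨a, b a⟩
  rw [e]
  exact hUc.inter h1.isClosed_compl

theorem SymStep.isOpen {U V : Subgroup G} {n : ℕ} (h : SymStep U V n) : IsOpen (V : Set G) := by
  obtain ⟨p, hp, ho, hps, j, hj⟩ := h
  apply Subgroup.isOpen_of_mem_nhds V (g := 1)
  refine Filter.mem_of_superset (ho.mem_nhds ⟨U.one_mem, hp.one⟩) ?_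
  rintro u ⟨hu, hu1⟩
  exact (hj u).2 ⟨hu, by rw [hu1]; rfl⟩

/-- the index of the stabiliser is `n` -/
theorem SymStep.relIndex {U V : Subgroup G} {n : ℕ} (h : SymStep U V n) :
    V.relIndex U = n := by
  obtain ⟨p, hp, ho, hps, j, hj⟩ := h
  let q : U →* Equiv.Perm (Fin n) :=
    { toFun := fun u => p u
      map_one' := hp.one
      map_mul' := fun a b => hp a a.2 b b.2 }
  have e : V.subgroupOf U = (MulAction.stabilizer (Equiv.Perm (Fin n)) j).comap q := by
    ext u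
    rw [Subgroup.mem_subgroupOf, hj, Subgroup.mem_comap, MulAction.mem_stabilizer_iff]
    exact ⟨fun h => h.2, fun h => ⟨u.2, h⟩⟩
  have hq : Function.Surjective q := by
    intro σ
    obtain ⟨u, hu, hs⟩ := hps σ
    exact ⟨⟨u, hu⟩, hs⟩
  unfold Subgroup.relIndex
  rw [e, Subgroup.index_comap_of_surjective _ hq]
  have hn : Nonempty (Fin n) := ⟨j⟩
  have := MulAction.index_stabilizer_of_transitive (G := Equiv.Perm (Fin n)) j
  rw [this, Nat.card_fin]

end step

end Pool.Agent.H49R3.SC
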