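import Pool.Agent.H49R3.SC.Abs1

set_option autoImplicit false

/-!
Towers of open subgroups solving all weakly solvable finite embedding problems in the limit.
-/

namespace Pool.Agent.H49R3.SC

open Set

variable {G : Type} [Group G] [TopologicalSpace G]

/-- For every open subgroup `U` and every finite weakly solvable embedding problem for `U`, for
all large `n` there is a point stabiliser `V` of an `S_n`-action of `U` over which it has a proper
solution. -/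
def KP (G : Type) [Group G] [TopologicalSpace G] : Prop :=
  ∀ U : Subgroup G, IsOpen (U : Set G) → ∀ (B : Type) [Group B] [Finite B] (N : Subgroup B)
    [N.Normal] (ψ : G → B), HomOn U ψ → IsOpen {u | u ∈ U ∧ ψ u = 1} →
    (∀ b, ∃ u ∈ U, (ψ u)⁻¹ * b ∈ N) →
    ∃ n₀ : ℕ, ∀ n ≥ n₀, ∃ V : Subgroup G, SymStep U V n ∧ ∃ θ : G → B, HomOn V θ ∧
      IsOpen {u | u ∈ V ∧ θ u = 1} ∧ (∀ b, ∃ v ∈ V, θ v = b) ∧ ∀ v ∈ V, (ψ v)⁻¹ * θ v ∈ N

/-- finite data describing embedding problems for open subgroups -/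
abbrev Datum {ι : Type} (O : ι → Subgroup G) : Type :=
  Σ (i : ι) (b : ℕ), Subgroup (Equiv.Perm (Fin b)) × Subgroup (Equiv.Perm (Fin b)) ×
    ((G ⧸ O i) → Equiv.Perm (Fin b))

variable {ι : Type} (O : ι → Subgroup G)

omit [TopologicalSpace G] in
theorem datum_countable [Countable ι] (hf : ∀ i, Finite (G ⧸ O i)) : Countable (Datum O) := by
  infer_instance

/-- the map attached to a datum -/
def Datum.f {O : ι → Subgroup G} (e : Datum O) : G → Equiv.Perm (Fin e.2.1) :=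
  fun x => e.2.2.2.2 (QuotientGroup.mk x)

/-- the datum defines a weakly solvable embedding problem for `U` -/
def Datum.Cond {O : ι → Subgroup G} (e : Datum O) (U : Subgroup G) : Prop :=
  (∀ u ∈ U, e.f u ∈ e.2.2.1) ∧ HomOn U e.f ∧
    (∀ x ∈ e.2.2.2.1, ∀ y ∈ e.2.2.1, y * x * y⁻¹ ∈ e.2.2.2.1) ∧
    (∀ b ∈ e.2.2.1, ∃ u ∈ U, (e.f u)⁻¹ * b ∈ e.2.2.2.1)

/-- solution over `V` -/
def Datum.Sol {O : ι → Subgroup G} (e : Datum O) (V : Subgroup G) : Prop :=
  ∃ θ : G → Equiv.Perm (Fin e.2.1), HomOn V θ ∧ IsOpen {u | u ∈ V ∧ θ u = 1} ∧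
    (∀ b ∈ e.2.2.1, ∃ v ∈ V, θ v = b) ∧ (∀ v ∈ V, θ v ∈ e.2.2.1) ∧
    ∀ v ∈ V, (e.f v)⁻¹ * θ v ∈ e.2.2.2.1

variable [IsTopologicalGroup G]

theorem Datum.open_ker (hO : ∀ i, IsOpen (O i : Set G)) (e : Datum O) (U : Subgroup G)
    (hU : IsOpen (U : Set G)) : IsOpen {u | u ∈ U ∧ e.f u = 1} := by
  have hd : DiscreteTopology (G ⧸ O e.1) := QuotientGroup.discreteTopology (hO e.1)
  have h1 : IsOpen {u : G | e.f u = 1} := by
    have : {u : G | e.f u = 1} = (QuotientGroup.mk : G → G ⧸ O e.1) ⁻¹'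
        {q | e.2.2.2.2 q = 1} := rfl
    rw [this]
    exact (isOpen_discrete _).preimage QuotientGroup.continuous_mk
  exact hU.inter h1

theorem step (hO : ∀ i, IsOpen (O i : Set G)) (hKP : KP G) (D : Set ℕ) (hD : D.Infinite)
    (U : Subgroup G) (hU : IsOpen (U : Set G)) (m : ℕ) (e : Datum O) :
    ∃ (V : Subgroup G) (n : ℕ), n ∈ D ∧ m < n ∧ SymStep U V n ∧ (e.Cond U → e.Sol V) := by
  classical
  have hex : ∀ n₀ : ℕ, ∃ n ∈ D, m < n ∧ n₀ ≤ n := by
    intro n₀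
    obtain ⟨n, hn, hlt⟩ := hD.exists_gt (max m n₀)
    exact ⟨n, hn, lt_of_le_of_lt (le_max_left _ _) hlt, (lt_of_le_of_lt (le_max_right _ _) hlt).le⟩
  by_cases hc : e.Cond U
  · obtain ⟨h1, h2, h3, h4⟩ := hc
    set P := e.2.2.1 with hP
    let N : Subgroup P := e.2.2.2.1.subgroupOf P
    have hN : N.Normal := by
      refine ⟨fun x hx y => ?_⟩
      rw [Subgroup.mem_subgroupOf] at hx ⊢
      exact h3 _ hx _ y.2
    let ψ : G → P := fun x => if hx : x ∈ U then ⟨e.f x, h1 x hx⟩ else 1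
    have hψ : ∀ x (hx : x ∈ U), (ψ x : Equiv.Perm (Fin e.2.1)) = e.f x := by
      intro x hx
      simp only [ψ, dif_pos hx]
    have hhom : HomOn U ψ := by
      intro u hu v hv
      apply Subtype.ext
      rw [hψ _ (U.mul_mem hu hv), Subgroup.coe_mul, hψ u hu, hψ v hv, h2 u hu v hv]
    have hop : IsOpen {u | u ∈ U ∧ ψ u = 1} := by
      have e1 : {u | u ∈ U ∧ ψ u = 1} = {u | u ∈ U ∧ e.f u = 1} := by
        ext u
        simp only [mem_ofPred_eq]
        constructor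
        · rintro ⟨a, b⟩; exact ⟨a, by rw [← hψ u a, b]; rfl⟩
        · rintro ⟨a, b⟩; exact ⟨a, Subtype.ext (by rw [hψ u a, b]; rfl)⟩
      rw [e1]
      exact Datum.open_ker O hO e U hU
    obtain ⟨n₀, hn₀⟩ := hKP U hU P N ψ hhom hop (by
      intro b
      obtain ⟨u, hu, hub⟩ := h4 b b.2
      refine ⟨u, hu, ?_⟩
      rw [Subgroup.mem_subgroupOf, Subgroup.coe_mul, Subgroup.coe_inv, hψ u hu]
      exact hub)
    obtain ⟨n, hn, hmn, hn0⟩ := hex n₀
    obtain ⟨V, hV, θ, hθ1, hθ2, hθ3, hθ4⟩ := hn₀ n hn0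
    refine ⟨V, n, hn, hmn, hV, fun _ => ⟨fun x => (θ x : Equiv.Perm (Fin e.2.1)), ?_, ?_, ?_, ?_, ?_⟩⟩
    · intro u hu v hv
      exact congrArg Subtype.val (hθ1 u hu v hv)
    · have e1 : {u | u ∈ V ∧ (θ u : Equiv.Perm (Fin e.2.1)) = 1} = {u | u ∈ V ∧ θ u = 1} := by
        ext u
        simp only [mem_ofPred_eq]
        constructor
        · rintro ⟨a, b⟩; exact ⟨a, Subtype.ext b⟩
        · rintro ⟨a, b⟩; exact ⟨a, by rw [b]; rfl⟩
      rw [e1]; exact hθ2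
    · intro b hb
      obtain ⟨v, hv, hvb⟩ := hθ3 ⟨b, hb⟩
      exact ⟨v, hv, congrArg Subtype.val hvb⟩
    · intro v _
      exact (θ v).2
    · intro v hv
      have := hθ4 v hv
      rw [Subgroup.mem_subgroupOf, Subgroup.coe_mul, Subgroup.coe_inv, hψ v (hV.le hv)] at this
      exact this
  · -- trivial embedding problem
    obtain ⟨n₀, hn₀⟩ := hKP U hU Unit ⊤ (fun _ => 1) (fun _ _ _ _ => rfl)
      (by simpa using hU) (fun b => ⟨1, U.one_mem, Subgroup.mem_top _⟩)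
    obtain ⟨n, hn, hmn, hn0⟩ := hex n₀
    obtain ⟨V, hV, -⟩ := hn₀ n hn0
    exact ⟨V, n, hn, hmn, hV, fun h => absurd h hc⟩

end Pool.Agent.H49R3.SC
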