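import Pool.Agent.H49R3.SC.Abs2

set_option autoImplicit false

namespace Pool.Agent.H49R3.SC

open Set

variable {G : Type} [Group G] [TopologicalSpace G] [IsTopologicalGroup G]

section limit

/-- surjectivity passes to the intersection -/
theorem fiber_inter [CompactSpace G] {B : Type*} [Group B] (U : ℕ → Subgroup G)
    (hU : ∀ k, IsOpen (U k : Set G)) (hanti : ∀ k, U (k + 1) ≤ U k) (k₀ : ℕ) (θ : G → B)
    (hθ : HomOn (U k₀) θ) (hop : IsOpen {u | u ∈ U k₀ ∧ θ u = 1}) (b : B)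
    (hne : ∀ k, ∃ v ∈ U (k₀ + k), θ v = b) : ∃ h ∈ ⨅ k, U k, θ h = b := by
  have hle : Antitone U := antitone_nat_of_succ_le hanti
  let t : ℕ → Set G := fun k => (U (k₀ + k) : Set G) ∩ {x | x ∈ U k₀ ∧ θ x ∈ ({b} : Set B)}
  have hcl : ∀ k, IsClosed (t k) := fun k =>
    ((U (k₀ + k)).isClosed_of_isOpen (hU _)).inter (isClosed_fiber hθ (hU _) hop _)
  have h1 := IsCompact.nonempty_iInter_of_sequence_nonempty_isCompact_isClosed t
    (fun k => by
      rintro x ⟨hx1, hx2⟩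
      exact ⟨hanti _ hx1, hx2⟩)
    (fun k => by
      obtain ⟨v, hv, hvb⟩ := hne k
      exact ⟨v, hv, hle (Nat.le_add_right k₀ k) hv, hvb⟩)
    (hcl 0).isCompact hcl
  obtain ⟨x, hx⟩ := h1
  rw [mem_iInter] at hx
  refine ⟨x, ?_, ((hx 0).2).2⟩
  rw [Subgroup.mem_iInf]
  intro k
  exact hle (Nat.le_add_left k k₀) (hx k).1

/-- a neighbourhood of the intersection contains some member -/
theorem mem_of_inter [CompactSpace G] (U : ℕ → Subgroup G)
    (hU : ∀ k, IsOpen (U k : Set G)) (hanti : ∀ k, U (k + 1) ≤ U k) (Q : Set G) (hQ : IsOpen Q)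
    (hsub : ((⨅ k, U k : Subgroup G) : Set G) ⊆ Q) : ∃ k, (U k : Set G) ⊆ Q := by
  by_contra hcon
  push Not at hcon
  have hcl : ∀ k, IsClosed ((U k : Set G) ∩ Qᶜ) := fun k =>
    ((U k).isClosed_of_isOpen (hU _)).inter hQ.isClosed_compl
  have h1 := IsCompact.nonempty_iInter_of_sequence_nonempty_isCompact_isClosed
    (fun k => (U k : Set G) ∩ Qᶜ)
    (fun k => by
      rintro x ⟨hx1, hx2⟩
      exact ⟨hanti _ hx1, hx2⟩)
    (fun k => by
      obtain ⟨x, hx1, hx2⟩ := Set.not_subset.1 (hcon k)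
      exact ⟨x, hx1, hx2⟩)
    (hcl 0).isCompact hcl
  obtain ⟨x, hx⟩ := h1
  rw [mem_iInter] at hx
  refine (hx 0).2 (hsub ?_)
  rw [SetLike.mem_coe, Subgroup.mem_iInf]
  exact fun k => (hx k).1

end limit

theorem exists_tower {ι : Type} (O : ι → Subgroup G) (hO : ∀ i, IsOpen (O i : Set G))
    (hKP : KP G) (D : Set ℕ) (hD : D.Infinite) (m₀ : ℕ) (e : ℕ → Datum O) :
    ∃ (U : ℕ → Subgroup G) (n : ℕ → ℕ), U 0 = ⊤ ∧ (∀ k, IsOpen (U k : Set G)) ∧
      (∀ k, n k ∈ D) ∧ (∀ k, m₀ < n k) ∧ (∀ k l, k < l → (e k).2.1.factorial < n l) ∧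
      (∀ k, SymStep (U k) (U (k + 1)) (n k)) ∧
      ∀ k, (e k).Cond (U k) → (e k).Sol (U (k + 1)) := by
  classical
  have hst := fun (s : {U : Subgroup G // IsOpen (U : Set G)} × ℕ) (k : ℕ) =>
    step O hO hKP D hD s.1.1 s.1.2 s.2 (e k)
  choose Vf nf h1 h2 h3 h4 using hst
  let S : ℕ → {U : Subgroup G // IsOpen (U : Set G)} × ℕ := fun k => Nat.rec
    (⟨⊤, isOpen_univ⟩, m₀)
    (fun k s => (⟨Vf s k, (h3 s k).isOpen⟩, max s.2 (e k).2.1.factorial)) k
  have hS : ∀ k, S (k + 1) = (⟨Vf (S k) k, (h3 (S k) k).isOpen⟩,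
    max (S k).2 (e k).2.1.factorial) := fun k => rfl
  have hm : ∀ k, (S k).2 ≤ (S (k + 1)).2 := fun k => by
    rw [hS]; exact le_max_left _ _
  have hmono : Monotone fun k => (S k).2 := monotone_nat_of_le_succ hm
  refine ⟨fun k => (S k).1.1, fun k => nf (S k) k, rfl, fun k => (S k).1.2,
    fun k => h1 (S k) k, ?_, ?_, fun k => h3 (S k) k, fun k => h4 (S k) k⟩
  · intro k
    exact lt_of_le_of_lt (hmono (Nat.zero_le k)) (h2 (S k) k)
  · intro k l hkl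
    have h5 : (e k).2.1.factorial ≤ (S (k + 1)).2 := by
      rw [hS]; exact le_max_right _ _
    exact lt_of_le_of_lt (h5.trans (hmono hkl)) (h2 (S l) l)

/-- surjectivity persists along the tower -/
theorem persist (U : ℕ → Subgroup G) (n : ℕ → ℕ) (hs : ∀ k, SymStep (U k) (U (k + 1)) (n k))
    {B : Type*} [Group B] [Finite B] (k₀ : ℕ) (θ : G → B) (hθ : HomOn (U k₀) θ)
    (hb : ∀ k ≥ k₀, Nat.card B < n k) (u : G) (hu : u ∈ U k₀) (k : ℕ) :
    ∃ v ∈ U (k₀ + k), θ v = θ u := by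
  have hle : Antitone U := antitone_nat_of_succ_le fun k => (hs k).le
  induction k with
  | zero => exact ⟨u, hu, rfl⟩
  | succ k ih =>
    obtain ⟨v, hv, hvu⟩ := ih
    obtain ⟨w, hw, hwv⟩ := (hs (k₀ + k)).surj (hb _ (Nat.le_add_right _ _))
      (hθ.mono (hle (Nat.le_add_right k₀ k))) v hv
    exact ⟨w, hw, hwv.trans hvu⟩

end Pool.Agent.H49R3.SC
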