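import Pool.Agent.H49R3.SC.Abs3

set_option autoImplicit false

namespace Pool.Agent.H49R3.SC

open Set

variable {G : Type} [Group G] [TopologicalSpace G] [IsTopologicalGroup G]

/-- Every weakly solvable finite embedding problem for the topological group `H` has a proper
solution: for every finite group `B`, normal subgroup `N` of `B` and continuous homomorphism
`ψ : H → B` with `ψ(H) N = B` there is a continuous surjective homomorphism `θ : H → B` with
`θ ≡ ψ` modulo `N`. (Continuity is openness of the kernel.) -/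
def AllSolvable (H : Type) [Group H] [TopologicalSpace H] : Prop :=
  ∀ (B : Type) [Group B] [Finite B] (N : Subgroup B) [N.Normal] (ψ : H →* B),
    IsOpen (ψ.ker : Set H) → ψ.range ⊔ N = ⊤ →
    ∃ θ : H →* B, IsOpen (θ.ker : Set H) ∧ Function.Surjective θ ∧ ∀ h, (ψ h)⁻¹ * θ h ∈ N

theorem tower [CompactSpace G] {ι : Type} [Countable ι] (O : ι → Subgroup G)
    (hO : ∀ i, IsOpen (O i : Set G)) (hOn : ∀ i, (O i).Normal)
    (hOb : ∀ Q : Set G, IsOpen Q → 1 ∈ Q → ∃ i, (O i : Set G) ⊆ Q)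
    (hKP : KP G) (D : Set ℕ) (hD : D.Infinite) (W : Subgroup G) [W.Normal]
    (hW : IsOpen (W : Set G)) :
    ∃ U : ℕ → Subgroup G, U 0 = ⊤ ∧ (∀ k, IsOpen (U k : Set G)) ∧
      (∀ k, ∃ n ∈ D, SymStep (U k) (U (k + 1)) n) ∧ (⨅ k, U k) ⊔ W = ⊤ ∧
      AllSolvable (⨅ k, U k : Subgroup G) := by
  classical
  have hfin : ∀ i, Finite (G ⧸ O i) := fun i => Subgroup.quotient_finite_of_isOpen (O i) (hO i)
  have hfinW : Finite (G ⧸ W) := Subgroup.quotient_finite_of_isOpen W hW
  have hcount : Countable (Datum O) := datum_countable O hfin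
  obtain ⟨i₀, -⟩ := hOb univ isOpen_univ (mem_univ _)
  have hne : Nonempty (Datum O) := ⟨⟨i₀, 0, ⊤, ⊤, fun _ => 1⟩⟩
  obtain ⟨s, hs⟩ := exists_surjective_nat (Datum O)
  let e : ℕ → Datum O := fun k => s (Nat.unpair k).1
  have he : ∀ (d : Datum O) (j : ℕ), ∃ k, j ≤ k ∧ e k = d := by
    intro d j
    obtain ⟨a, ha⟩ := hs d
    refine ⟨Nat.pair a j, Nat.right_le_pair a j, ?_⟩
    simp only [e, Nat.unpair_pair]
    exact ha
  obtain ⟨U, n, hU0, hUo, hnD, hm0, hme, hstep, hsol⟩ :=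
    exists_tower O hO hKP D hD (Nat.card (G ⧸ W)) e
  have hanti : ∀ k, U (k + 1) ≤ U k := fun k => (hstep k).le
  have hle : Antitone U := antitone_nat_of_succ_le hanti
  refine ⟨U, hU0, hUo, fun k => ⟨n k, hnD k, hstep k⟩, ?_, ?_⟩
  · -- surjectivity modulo `W`
    rw [eq_top_iff]
    intro x _
    have hhom : HomOn (U 0) (QuotientGroup.mk' W) := fun u _ v _ => map_mul _ u v
    obtain ⟨h, hh, hhx⟩ := fiber_inter U hUo hanti 0 (QuotientGroup.mk' W) hhom (by
      have e1 : {u | u ∈ U 0 ∧ (QuotientGroup.mk' W) u = 1} = (U 0 : Set G) ∩ W := by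
        ext u
        simp
      rw [e1]
      exact (hUo 0).inter hW) (QuotientGroup.mk' W x) (fun k => by
        have := persist U n hstep 0 (QuotientGroup.mk' W) hhom (fun k _ => hm0 k) x
          (by rw [hU0]; exact Subgroup.mem_top x) k
        exact this)
    have h1 : h⁻¹ * x ∈ W := by
      rw [← QuotientGroup.eq]
      exact hhx
    have h2 : x = h * (h⁻¹ * x) := by group
    rw [h2]
    exact Subgroup.mul_mem _ (Subgroup.mem_sup_left hh) (Subgroup.mem_sup_right h1)
  · have hfi : ∀ (k₀ : ℕ) {B : Type} [Group B] (θ : G → B), HomOn (U k₀) θ →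
        IsOpen {u | u ∈ U k₀ ∧ θ u = 1} → ∀ b : B, (∀ k, ∃ v ∈ U (k₀ + k), θ v = b) →
        ∃ h ∈ ⨅ k, U k, θ h = b := fun k₀ _ _ θ a1 a2 b a3 =>
      fiber_inter U hUo hanti k₀ θ a1 a2 b a3
    have hmi := mem_of_inter U hUo hanti
    have hHU : ∀ k, (⨅ k, U k) ≤ U k := fun k => iInf_le U k
    generalize (⨅ k, U k) = H at hfi hmi hHU ⊢
    intro B _ _ N hN ψ hψ hrange
    -- an open normal subgroup on which `ψ` is trivial
    obtain ⟨Q, hQ, hQψ⟩ := isOpen_induced_iff.1 hψ
    obtain ⟨i, hi⟩ := hOb Q hQ (by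
      have h1 : (1 : H) ∈ (ψ.ker : Set H) := ψ.ker.one_mem
      rw [← hQψ] at h1
      exact h1)
    have hψ1 : ∀ h : H, (h : G) ∈ O i → ψ h = 1 := by
      intro h hh
      have h1 : h ∈ Subtype.val ⁻¹' Q := hi hh
      rw [hQψ] at h1
      exact h1
    have hψ2 : ∀ h h' : H, (h : G)⁻¹ * h' ∈ O i → ψ h = ψ h' := by
      intro h h' hh
      have h1 := hψ1 (h⁻¹ * h') hh
      rw [map_mul, map_inv, inv_mul_eq_one] at h1
      exact h1
    -- Cayley
    let c : B →* Equiv.Perm (Fin (Nat.card B)) :=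
      ((Finite.equivFin B).permCongrHom.toMonoidHom).comp (MulAction.toPermHom B B)
    have hc : Function.Injective c := by
      have h1 : Function.Injective (MulAction.toPermHom B B) := MulAction.toPerm_injective
      exact (Finite.equivFin B).permCongrHom.injective.comp h1
    let g : (G ⧸ O i) → Equiv.Perm (Fin (Nat.card B)) := fun q =>
      if hq : ∃ h : H, (QuotientGroup.mk (h : G) : G ⧸ O i) = q then c (ψ (Classical.choose hq))
      else 1
    have hg : ∀ (x : G) (h : H), (h : G)⁻¹ * x ∈ O i → g (QuotientGroup.mk x) = c (ψ h) := by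
      intro x h hx
      have hq : ∃ h' : H, (QuotientGroup.mk (h' : G) : G ⧸ O i) = QuotientGroup.mk x :=
        ⟨h, QuotientGroup.eq.2 hx⟩
      simp only [g, dif_pos hq]
      congr 1
      apply hψ2
      have h1 := Classical.choose_spec hq
      set h' := Classical.choose hq
      rw [QuotientGroup.eq] at h1
      have h2 : (h' : G)⁻¹ * h = ((h' : G)⁻¹ * x) * ((h : G)⁻¹ * x)⁻¹ := by group
      rw [h2]
      exact (O i).mul_mem h1 ((O i).inv_mem hx)
    let d : Datum O := ⟨i, Nat.card B, c.range, N.map c, g⟩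
    have hdf : ∀ (x : G) (h : H), (h : G)⁻¹ * x ∈ O i → d.f x = c (ψ h) := hg
    have hdf' : ∀ h : H, d.f h = c (ψ h) := fun h => hdf h h (by
      rw [inv_mul_cancel]; exact (O i).one_mem)
    -- a member of the tower close to `H`
    obtain ⟨j₀, hj₀⟩ := hmi {x | ∃ h ∈ H, (h : G)⁻¹ * x ∈ O i} (by
      have e1 : {x : G | ∃ h ∈ H, (h : G)⁻¹ * x ∈ O i} =
          ⋃ h ∈ H, (fun x : G => h⁻¹ * x) ⁻¹' (O i : Set G) := by
        ext x; simp
      rw [e1]
      exact isOpen_biUnion fun h _ => (hO i).preimage (continuous_const.mul continuous_id))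
      (fun h hh => ⟨h, hh, by rw [inv_mul_cancel]; exact (O i).one_mem⟩)
    obtain ⟨k, hk, hek⟩ := he d j₀
    have hclose : ∀ u ∈ U k, ∃ h : H, (h : G)⁻¹ * u ∈ O i := by
      intro u hu
      obtain ⟨h, hh, hh2⟩ := hj₀ (hle hk hu)
      exact ⟨⟨h, hh⟩, hh2⟩
    have hcond : d.Cond (U k) := by
      refine ⟨?_, ?_, ?_, ?_⟩
      · intro u hu
        obtain ⟨h, hh⟩ := hclose u hu
        rw [hdf u h hh]
        exact ⟨_, rfl⟩
      · intro u hu v hv
        obtain ⟨h, hh⟩ := hclose u hu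
        obtain ⟨h', hh'⟩ := hclose v hv
        rw [hdf u h hh, hdf v h' hh', hdf (u * v) (h * h') ?_, map_mul, map_mul]
        have e1 : ((h * h' : H) : G)⁻¹ * (u * v) =
            ((h' : G)⁻¹ * ((h : G)⁻¹ * u) * ((h' : G)⁻¹)⁻¹) * ((h' : G)⁻¹ * v) := by
          rw [Subgroup.coe_mul]; group
        rw [e1]
        exact (O i).mul_mem ((hOn i).conj_mem _ hh _) hh'
      · rintro _ ⟨x, hx, rfl⟩ _ ⟨y, rfl⟩
        exact ⟨y * x * y⁻¹, hN.conj_mem x hx y, by rw [map_mul, map_mul, map_inv]⟩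
      · rintro _ ⟨β, rfl⟩
        have hβ : β ∈ ψ.range ⊔ N := by rw [hrange]; exact Subgroup.mem_top β
        rw [← SetLike.mem_coe, Subgroup.mul_normal] at hβ
        obtain ⟨_, ⟨h, rfl⟩, ν, hν, hβ'⟩ := hβ
        refine ⟨h, hHU k h.2, ?_⟩
        rw [hdf' h, ← map_inv, ← map_mul]
        refine ⟨_, ?_, rfl⟩
        have h3 : (ψ h)⁻¹ * β = ν := by rw [← hβ']; exact inv_mul_cancel_left _ _
        rw [h3]; exact hν
    have hs2 := hsol k (by rw [hek]; exact hcond)
    have hbnd : ∀ l ≥ k + 1, (Nat.card B).factorial < n l := by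
      intro l hl
      have h1 := hme k l hl
      rw [hek] at h1
      exact h1
    rw [hek] at hs2
    obtain ⟨θ', hθ1, hθ2, hθ3, hθ4, hθ5⟩ := hs2
    -- restrict to `H`
    let cr : B ≃* c.range := MonoidHom.ofInjective hc
    let θ : H →* B := 
      { toFun := fun h => cr.symm ⟨θ' h, hθ4 h (hHU (k + 1) h.2)⟩
        map_one' := by
          rw [MulEquiv.symm_apply_eq, map_one]
          exact Subtype.ext hθ1.one
        map_mul' := by
          intro a b
          rw [← map_mul]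
          congr 1
          exact Subtype.ext (hθ1 a (hHU _ a.2) b (hHU _ b.2)) }
    have hθ : ∀ h : H, c (θ h) = θ' h := by
      intro h
      have h1 : cr (θ h) = ⟨θ' h, hθ4 h (hHU (k + 1) h.2)⟩ := MulEquiv.apply_symm_apply _ _
      exact congrArg Subtype.val h1
    refine ⟨θ, ?_, ?_, ?_⟩
    · have e1 : (θ.ker : Set H) = Subtype.val ⁻¹' {u | u ∈ U (k + 1) ∧ θ' u = 1} := by
        ext h
        rw [SetLike.mem_coe, MonoidHom.mem_ker, mem_preimage, mem_ofPred_eq]
        constructor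
        · intro h1
          exact ⟨hHU _ h.2, by rw [← hθ, h1, map_one]⟩
        · rintro ⟨-, h1⟩
          apply hc
          rw [hθ, h1, map_one]
      rw [e1]
      exact hθ2.preimage continuous_subtype_val
    · intro β
      obtain ⟨h, hh, hhβ⟩ := hfi (k + 1) θ' hθ1 hθ2 (c β) (fun l => by
        obtain ⟨v, hv, hvβ⟩ := hθ3 (c β) ⟨β, rfl⟩
        obtain ⟨w, hw, hwv⟩ := persist U n hstep (k + 1) θ' hθ1 (fun l hl => by
          have h5 := hbnd l hl
          rw [Nat.card_perm, Nat.card_fin]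
          exact h5) v hv l
        exact ⟨w, hw, hwv.trans hvβ⟩)
      refine ⟨⟨h, hh⟩, hc ?_⟩
      rw [hθ]
      exact hhβ
    · intro h
      have h1 := hθ5 h (hHU _ h.2)
      rw [hdf' h, ← hθ h, ← map_inv, ← map_mul] at h1
      obtain ⟨ν, hν, hν2⟩ := h1
      rw [← hc hν2]
      exact hν

end Pool.Agent.H49R3.SC
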