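import Mathlib
import Pool.Agent.H391R2.T4.Fin
import Pool.Agent.H49R3.SC.Abs4

set_option autoImplicit false

namespace Pool.Agent.H49R3.SC

open Pool.Agent.H391R2.T4

section grp

theorem exists_hom {G A C : Type*} [Group G] [Group A] [Group C] (f : G →* A) (g : G →* C)
    (hf : Function.Surjective f) (hk : f.ker ≤ g.ker) : ∃ h : A →* C, ∀ x, h (f x) = g x := by
  refine ⟨(QuotientGroup.lift f.ker g hk).comp
    (QuotientGroup.quotientKerEquivOfSurjective f hf).symm.toMonoidHom, fun x => ?_⟩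
  have h1 : (QuotientGroup.quotientKerEquivOfSurjective f hf).symm (f x) = QuotientGroup.mk x := by
    rw [MulEquiv.symm_apply_eq]; rfl
  change QuotientGroup.lift f.ker g hk ((QuotientGroup.quotientKerEquivOfSurjective f hf).symm (f x)) = g x
  rw [h1]; rfl

theorem exists_iso {G A C : Type*} [Group G] [Group A] [Group C] (f : G →* A) (g : G →* C)
    (hf : Function.Surjective f) (hg : Function.Surjective g) (hk : f.ker = g.ker) :
    ∃ h : A ≃* C, ∀ x, h (f x) = g x := by
  obtain ⟨h, hh⟩ := exists_hom f g hf hk.le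
  obtain ⟨h', hh'⟩ := exists_hom g f hg hk.ge
  refine ⟨MonoidHom.toMulEquiv h h' ?_ ?_, hh⟩
  · ext a
    obtain ⟨x, rfl⟩ := hf a
    simp [hh, hh']
  · ext a
    obtain ⟨x, rfl⟩ := hg a
    simp [hh, hh']

end grp

section fld

variable {T Ω : Type} [Field T] [CharZero T] [Field Ω] [Algebra T Ω] [IsAlgClosure T Ω]

/-- finite Galois extensions from open normal subgroups -/
theorem fixed_data (H : Subgroup (Ω ≃ₐ[T] Ω)) [hn : H.Normal] (ho : IsOpen (H : Set (Ω ≃ₐ[T] Ω))) :
    ∃ L : IntermediateField T Ω, FiniteDimensional T L ∧ IsGalois T L ∧ L.fixingSubgroup = H := by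
  have : Normal T Ω := IsAlgClosure.normal T Ω
  have : IsGalois T Ω := ⟨⟩
  let Hc : ClosedSubgroup (Ω ≃ₐ[T] Ω) := ⟨H, H.isClosed_of_isOpen ho⟩
  have h1 : (IntermediateField.fixedField H).fixingSubgroup = H :=
    InfiniteGalois.fixingSubgroup_fixedField Hc
  refine ⟨IntermediateField.fixedField H, ?_, ?_, h1⟩
  · rw [← InfiniteGalois.isOpen_iff_finite]
    change IsOpen ((IntermediateField.fixedField H).fixingSubgroup : Set (Ω ≃ₐ[T] Ω))
    rw [h1]; exact ho
  · rw [← InfiniteGalois.normal_iff_isGalois, h1]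
    exact hn

/-- a weak solution -/
theorem weak_of_hom (B : Type) [Group B] (L L' : IntermediateField T Ω) [FiniteDimensional T L]
    [IsGalois T L] [FiniteDimensional T L'] [IsGalois T L'] (hLL : L ≤ L')
    (α : B →* (L ≃ₐ[T] L)) (ψ : (Ω ≃ₐ[T] Ω) →* B) (hψ : L'.fixingSubgroup ≤ ψ.ker)
    (hα : ∀ σ : Ω ≃ₐ[T] Ω, α (ψ σ) = AlgEquiv.restrictNormalHom L σ) : WeakSol T L B α := by
  have hN : Normal T Ω := IsAlgClosure.normal T Ω
  let i1 : Algebra L L' := (IntermediateField.inclusion hLL).toRingHom.toAlgebra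
  have i2 : IsScalarTower T L L' := IsScalarTower.of_algebraMap_eq fun x => rfl
  obtain ⟨s, hs⟩ := exists_hom (AlgEquiv.restrictNormalHom L' : (Ω ≃ₐ[T] Ω) →* (L' ≃ₐ[T] L')) ψ
    (AlgEquiv.restrictNormalHom_surjective Ω) (by
      rw [IntermediateField.restrictNormalHom_ker]; exact hψ)
  refine ⟨L', inferInstance, inferInstance, inferInstance, inferInstance, i1, i2, s, ?_⟩
  intro ρ
  obtain ⟨σ, rfl⟩ := AlgEquiv.restrictNormalHom_surjective (K₁ := L') Ω ρ
  rw [hs, hα]
  apply AlgEquiv.ext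
  intro x
  apply Subtype.ext
  have h1 := AlgEquiv.restrictNormal_commutes (AlgEquiv.restrictNormalHom L' σ) L x
  have h2 := congrArg (fun y : L' => (y : Ω)) h1
  have h3 : ((AlgEquiv.restrictNormalHom L' σ (algebraMap L L' x) : L') : Ω) =
      σ ((algebraMap L L' x : L') : Ω) := AlgEquiv.restrictNormalHom_apply L' σ _
  rw [AlgEquiv.restrictNormalHom_apply L σ x]
  refine Eq.trans ?_ h2.symm
  rw [h3]
  rfl

end fld

end Pool.Agent.H49R3.SC
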