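import Mathlib
import Pool.Agent.H49R3.SC.Key

set_option autoImplicit false

namespace Pool.Agent.H49R3.SC

open Pool.Agent.H391R2.T4

theorem fd_of_finite_gal {T M : Type} [Field T] [Field M] [Algebra T M] [IsGalois T M]
    (hf : Finite (M ≃ₐ[T] M)) : FiniteDimensional T M := by
  have h2 : T2Space (M ≃ₐ[T] M) := krullTopology_t2
  have h3 : DiscreteTopology (M ≃ₐ[T] M) := inferInstance
  have h1 : FiniteDimensional T (⊤ : IntermediateField T M) := by
    rw [← InfiniteGalois.isOpen_iff_finite]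
    exact isOpen_discrete _
  exact LinearEquiv.finiteDimensional (IntermediateField.topEquiv (F := T) (E := M)).toLinearEquiv

theorem exists_emb (R S M : Type) [Field R] [Field S] [Field M] [IsAlgClosed M] [Algebra R S]
    [Algebra R M] (h : Algebra.IsAlgebraic R S) : ∃ _ : S →ₐ[R] M, True :=
  ⟨IsAlgClosed.lift, trivial⟩

section emb

variable {T Ω : Type} [Field T] [CharZero T] [Field Ω] [Algebra T Ω] [IsAlgClosure T Ω]

theorem of_sol (B : Type) [Group B] [Finite B] (L : IntermediateField T Ω)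
    [FiniteDimensional T L] [IsGalois T L] (α : B →* (L ≃ₐ[T] L)) (n : ℕ) (i : Fin n)
    (M : Type) [Field M] [Algebra T M] [IsGalois T M] (ψM : (M ≃ₐ[T] M) ≃* Equiv.Perm (Fin n))
    (hsol : SolOver T L B α (IntermediateField.fixedField
        ((MulAction.stabilizer (Equiv.Perm (Fin n)) i).comap ψM.toMonoidHom)) False) :
    ∃ V : Subgroup (Ω ≃ₐ[T] Ω), SymStep ⊤ V n ∧ ∃ θ : (Ω ≃ₐ[T] Ω) → B, HomOn V θ ∧
      IsOpen {u | u ∈ V ∧ θ u = 1} ∧ (∀ b, ∃ v ∈ V, θ v = b) ∧
      ∀ v ∈ V, α (θ v) = AlgEquiv.restrictNormalHom L v := by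
  classical
  have hac : IsAlgClosed Ω := IsAlgClosure.isAlgClosed T
  have halg : Algebra.IsAlgebraic T Ω := IsAlgClosure.isAlgebraic
  have hN : Normal T Ω := IsAlgClosure.normal T Ω
  have hfM : Finite (M ≃ₐ[T] M) := Finite.of_equiv _ ψM.symm.toEquiv
  have hfdM : FiniteDimensional T M := fd_of_finite_gal hfM
  set S : Subgroup (M ≃ₐ[T] M) :=
    (MulAction.stabilizer (Equiv.Perm (Fin n)) i).comap ψM.toMonoidHom with hS
  set Tn : IntermediateField T M := IntermediateField.fixedField S with hTn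
  have hfix : Tn.fixingSubgroup = S := IntermediateField.fixingSubgroup_fixedField S
  have hfdTn : FiniteDimensional T Tn := inferInstance
  obtain ⟨F, iF, iTnF, iLF, iTF, tw1, tw2, fdF, galF, γ, hγ, -⟩ := hsol
  have hfdF : FiniteDimensional T F := FiniteDimensional.trans T Tn F
  have halgF : Algebra.IsAlgebraic L F := Algebra.IsAlgebraic.tower_top (K := T) L
  obtain ⟨ι, -⟩ := exists_emb L F Ω halgF
  let iFΩ : Algebra F Ω := ι.toRingHom.toAlgebra
  have hιa : ∀ x : F, algebraMap F Ω x = ι x := fun x => rfl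
  have tw3 : IsScalarTower L F Ω := IsScalarTower.of_algebraMap_eq fun x => (ι.commutes x).symm
  have tw4 : IsScalarTower T F Ω := IsScalarTower.of_algebraMap_eq fun x => by
    rw [IsScalarTower.algebraMap_apply T L F, ← IsScalarTower.algebraMap_apply L F Ω,
      ← IsScalarTower.algebraMap_apply T L Ω]
  let iTnΩ : Algebra Tn Ω := ((algebraMap F Ω).comp (algebraMap Tn F)).toAlgebra
  have tw5 : IsScalarTower Tn F Ω := IsScalarTower.of_algebraMap_eq fun x => rfl
  have tw6 : IsScalarTower T Tn Ω := IsScalarTower.of_algebraMap_eq fun x => by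
    rw [IsScalarTower.algebraMap_apply Tn F Ω, ← IsScalarTower.algebraMap_apply T Tn F,
      ← IsScalarTower.algebraMap_apply T F Ω]
  have halgM : Algebra.IsAlgebraic Tn M := inferInstance
  obtain ⟨jM, -⟩ := exists_emb Tn M Ω halgM
  let iMΩ : Algebra M Ω := jM.toRingHom.toAlgebra
  have hja : ∀ x : M, algebraMap M Ω x = jM x := fun x => rfl
  have hjn : ∀ x : Tn, jM (x : M) = algebraMap Tn Ω x := fun x => jM.commutes x
  have tw7 : IsScalarTower T M Ω := IsScalarTower.of_algebraMap_eq fun x => by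
    rw [hja]
    have h1 : algebraMap T M x = ((algebraMap T Tn x : Tn) : M) := rfl
    rw [h1, hjn, ← IsScalarTower.algebraMap_apply T Tn Ω]
  let p : (Ω ≃ₐ[T] Ω) →* Equiv.Perm (Fin n) :=
    ψM.toMonoidHom.comp (AlgEquiv.restrictNormalHom M)
  have hres : ∀ (σ : Ω ≃ₐ[T] Ω) (x : M), jM (AlgEquiv.restrictNormalHom M σ x) = σ (jM x) := by
    intro σ x
    exact AlgEquiv.restrictNormal_commutes σ M x
  let V : Subgroup (Ω ≃ₐ[T] Ω) := (MulAction.stabilizer (Equiv.Perm (Fin n)) i).comap p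
  have hV1 : ∀ σ : Ω ≃ₐ[T] Ω, σ ∈ V ↔ AlgEquiv.restrictNormalHom M σ ∈ S := fun σ => Iff.rfl
  have hV : ∀ σ : Ω ≃ₐ[T] Ω, σ ∈ V ↔ ∀ x : Tn, σ (algebraMap Tn Ω x) = algebraMap Tn Ω x := by
    intro σ
    rw [hV1, ← hfix, IntermediateField.mem_fixingSubgroup_iff]
    constructor
    · intro h x
      have h1 := h x x.2
      rw [← hjn, ← hres, h1]
    · intro h x hx
      apply jM.injective
      change jM _ = jM _
      rw [hres, hjn ⟨x, hx⟩]
      exact h ⟨x, hx⟩
  let R : V →* (Ω ≃ₐ[Tn] Ω) :=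
    { toFun := fun v => AlgEquiv.ofRingEquiv (f := ((v : Ω ≃ₐ[T] Ω) : Ω ≃+* Ω))
        (fun x => (hV v).1 v.2 x)
      map_one' := by ext x; rfl
      map_mul' := fun a b => by ext x; rfl }
  have hR : ∀ (v : V) (x : Ω), R v x = (v : Ω ≃ₐ[T] Ω) x := fun v x => rfl
  let θ' : V →* B := γ.toMonoidHom.comp ((AlgEquiv.restrictNormalHom F).comp R)
  have hθres : ∀ (v : V) (x : F), ι (γ.symm (θ' v) x) = (v : Ω ≃ₐ[T] Ω) (ι x) := by
    intro v x
    have h1 : γ.symm (θ' v) = AlgEquiv.restrictNormalHom F (R v) := γ.symm_apply_apply _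
    rw [h1]
    exact AlgEquiv.restrictNormal_commutes (R v) F x
  let θ : (Ω ≃ₐ[T] Ω) → B := fun σ => if h : σ ∈ V then θ' ⟨σ, h⟩ else 1
  have hθ : ∀ (σ : Ω ≃ₐ[T] Ω) (h : σ ∈ V), θ σ = θ' ⟨σ, h⟩ := fun σ h => dif_pos h
  refine ⟨V, ⟨p, fun u _ v _ => map_mul p u v, ?_, ?_, i, fun u => ?_⟩, θ, ?_, ?_, ?_, ?_⟩
  · -- kernel of `p` is open
    let jT : M →ₐ[T] Ω := IsScalarTower.toAlgHom T M Ω
    have hfd : FiniteDimensional T jT.fieldRange :=
      LinearEquiv.finiteDimensional (AlgEquiv.ofInjectiveField jT).toLinearEquiv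
    have e1 : {u : Ω ≃ₐ[T] Ω | u ∈ (⊤ : Subgroup (Ω ≃ₐ[T] Ω)) ∧ p u = 1} =
        (jT.fieldRange.fixingSubgroup : Set (Ω ≃ₐ[T] Ω)) := by
      ext σ
      rw [SetLike.mem_coe, IntermediateField.mem_fixingSubgroup_iff]
      constructor
      · rintro ⟨-, h1⟩ _ ⟨x, rfl⟩
        have h2 : AlgEquiv.restrictNormalHom M σ = 1 := ψM.injective (by rw [map_one]; exact h1)
        have h3 := hres σ x
        rw [h2] at h3
        exact h3.symm
      · intro h
        refine ⟨Subgroup.mem_top _, ?_⟩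
        have h2 : AlgEquiv.restrictNormalHom M σ = 1 := by
          apply AlgEquiv.ext
          intro x
          apply jM.injective
          change jM _ = jM _
          rw [hres]
          exact h _ ⟨x, rfl⟩
        change ψM (AlgEquiv.restrictNormalHom M σ) = 1
        rw [h2, map_one]
    rw [e1]
    exact IntermediateField.fixingSubgroup_isOpen _
  · intro σ
    obtain ⟨τ, hτ⟩ := AlgEquiv.restrictNormalHom_surjective (K₁ := M) Ω (ψM.symm σ)
    refine ⟨τ, Subgroup.mem_top _, ?_⟩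
    change ψM (AlgEquiv.restrictNormalHom M τ) = σ
    rw [hτ, MulEquiv.apply_symm_apply]
  · constructor
    · intro h
      exact ⟨Subgroup.mem_top _, h⟩
    · rintro ⟨-, h⟩
      exact h
  · intro u hu v hv
    rw [hθ _ (V.mul_mem hu hv), hθ u hu, hθ v hv, ← map_mul]
    rfl
  · let ιT : F →ₐ[T] Ω := IsScalarTower.toAlgHom T F Ω
    have hfd : FiniteDimensional T ιT.fieldRange :=
      LinearEquiv.finiteDimensional (AlgEquiv.ofInjectiveField ιT).toLinearEquiv
    have e1 : {u : Ω ≃ₐ[T] Ω | u ∈ V ∧ θ u = 1} =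
        (ιT.fieldRange.fixingSubgroup : Set (Ω ≃ₐ[T] Ω)) := by
      ext σ
      rw [SetLike.mem_coe, IntermediateField.mem_fixingSubgroup_iff]
      constructor
      · rintro ⟨hσ, h1⟩ _ ⟨x, rfl⟩
        rw [hθ σ hσ] at h1
        have h3 := hθres ⟨σ, hσ⟩ x
        rw [h1, map_one] at h3
        exact h3.symm
      · intro h
        have hσ : σ ∈ V := by
          rw [hV]
          intro x
          exact h _ ⟨algebraMap Tn F x, rfl⟩
        refine ⟨hσ, ?_⟩
        rw [hθ σ hσ]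
        apply γ.symm.injective
        rw [map_one]
        apply AlgEquiv.ext
        intro x
        apply ι.injective
        change ι _ = ι _
        rw [hθres]
        exact h _ ⟨x, rfl⟩
    rw [e1]
    exact IntermediateField.fixingSubgroup_isOpen _
  · intro b
    have halg' : Algebra.IsAlgebraic Tn Ω := Algebra.IsAlgebraic.tower_top (K := T) Tn
    have hac' : IsAlgClosure Tn Ω := ⟨hac, halg'⟩
    have hN' : Normal Tn Ω := IsAlgClosure.normal Tn Ω
    obtain ⟨τ, hτ⟩ := AlgEquiv.restrictNormalHom_surjective (K₁ := F) Ω (γ.symm b)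
    have hτV : τ.restrictScalars T ∈ V := by
      rw [hV]
      intro x
      exact τ.commutes x
    refine ⟨τ.restrictScalars T, hτV, ?_⟩
    rw [hθ _ hτV]
    have h1 : R ⟨τ.restrictScalars T, hτV⟩ = τ := by
      ext x; rfl
    change γ (AlgEquiv.restrictNormalHom F (R ⟨τ.restrictScalars T, hτV⟩)) = b
    rw [h1, hτ, MulEquiv.apply_symm_apply]
  · intro σ hσ
    rw [hθ σ hσ]
    apply AlgEquiv.ext
    intro x
    apply Subtype.ext
    rw [AlgEquiv.restrictNormalHom_apply L σ x]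
    have h1 := hγ (γ.symm (θ' ⟨σ, hσ⟩)) x
    rw [MulEquiv.apply_symm_apply] at h1
    have h2 := congrArg ι h1
    rw [hθres] at h2
    have h3 : ∀ y : L, ι (algebraMap L F y) = (y : Ω) := fun y => ι.commutes y
    rw [h3, h3] at h2
    exact h2.symm

end emb

end Pool.Agent.H49R3.SC
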