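import Pool.Agent.H49R3.SC.Key2

set_option autoImplicit false

namespace Pool.Agent.H49R3.SC

open Pool.Agent.H391R2.T4

section top

variable {T Ω : Type} [Field T] [CharZero T] [Field Ω] [Algebra T Ω] [IsAlgClosure T Ω]

/-- The key property at the whole group. -/
theorem key_top (hT : HilbField T) (B : Type) [Group B] [Finite B] (N : Subgroup B) [N.Normal]
    (ψ : (Ω ≃ₐ[T] Ω) →* B) (ho : IsOpen (ψ.ker : Set (Ω ≃ₐ[T] Ω)))
    (hw : ∀ b, ∃ u, (ψ u)⁻¹ * b ∈ N) :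
    ∃ n₀ : ℕ, ∀ n ≥ n₀, ∃ V : Subgroup (Ω ≃ₐ[T] Ω), SymStep ⊤ V n ∧
      ∃ θ : (Ω ≃ₐ[T] Ω) → B, HomOn V θ ∧
      IsOpen {u | u ∈ V ∧ θ u = 1} ∧ (∀ b, ∃ v ∈ V, θ v = b) ∧ ∀ v ∈ V, (ψ v)⁻¹ * θ v ∈ N := by
  classical
  have hN : Normal T Ω := IsAlgClosure.normal T Ω
  have hgal : IsGalois T Ω := ⟨⟩
  set φ : (Ω ≃ₐ[T] Ω) →* B ⧸ N := (QuotientGroup.mk' N).comp ψ with hφ
  have hle : ψ.ker ≤ φ.ker := by
    intro u hu
    rw [MonoidHom.mem_ker] at hu ⊢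
    rw [hφ, MonoidHom.comp_apply, hu, map_one]
  have hoφ : IsOpen (φ.ker : Set (Ω ≃ₐ[T] Ω)) := Subgroup.isOpen_mono hle ho
  obtain ⟨L, fL, gL, hL⟩ := fixed_data φ.ker hoφ
  obtain ⟨L', fL', gL', hL'⟩ := fixed_data ψ.ker ho
  have hLL : L ≤ L' := by
    have h1 : L'.fixingSubgroup ≤ L.fixingSubgroup := by rw [hL, hL']; exact hle
    have e1 : IntermediateField.fixedField L.fixingSubgroup = L :=
      InfiniteGalois.fixedField_fixingSubgroup L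
    have e2 : IntermediateField.fixedField L'.fixingSubgroup = L' :=
      InfiniteGalois.fixedField_fixingSubgroup L'
    rw [← e1, ← e2]
    intro x hx
    rw [IntermediateField.mem_fixedField_iff] at hx ⊢
    intro σ hσ
    exact hx σ (h1 hσ)
  have hφs : Function.Surjective φ := by
    intro q
    obtain ⟨b, rfl⟩ := QuotientGroup.mk'_surjective N q
    obtain ⟨u, hu⟩ := hw b
    refine ⟨u, ?_⟩
    exact QuotientGroup.eq.2 hu
  obtain ⟨κ, hκ⟩ := exists_iso (AlgEquiv.restrictNormalHom L : (Ω ≃ₐ[T] Ω) →* (L ≃ₐ[T] L)) φ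
    (AlgEquiv.restrictNormalHom_surjective Ω) hφs (by
      rw [IntermediateField.restrictNormalHom_ker, hL])
  let α : B →* (L ≃ₐ[T] L) := κ.symm.toMonoidHom.comp (QuotientGroup.mk' N)
  have hα : ∀ b, κ (α b) = QuotientGroup.mk' N b := fun b => κ.apply_symm_apply _
  have hαψ : ∀ σ : Ω ≃ₐ[T] Ω, α (ψ σ) = AlgEquiv.restrictNormalHom L σ := by
    intro σ
    apply κ.injective
    rw [hα, hκ]
    rfl
  have hweak : WeakSol T L B α := weak_of_hom B L L' hLL α ψ hL'.le hαψ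
  obtain ⟨n₀, hn₀⟩ := hil_all T L B α hT hweak
  refine ⟨n₀, fun n hn => ?_⟩
  obtain ⟨-, i, M, iM, iTM, gM, ψM, hsol⟩ := hn₀ n hn
  obtain ⟨V, hV, θ, hθ1, hθ2, hθ3, hθ4⟩ := of_sol B L α n i M ψM hsol
  refine ⟨V, hV, θ, hθ1, hθ2, hθ3, fun v hv => ?_⟩
  have h1 : α (ψ v) = α (θ v) := by rw [hαψ, hθ4 v hv]
  have h2 := congrArg κ h1
  rw [hα, hα] at h2
  exact QuotientGroup.eq.1 h2

end top

end Pool.Agent.H49R3.SC
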