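import Pool.Agent.H49R3.SC.Abs2

set_option autoImplicit false

namespace Pool.Agent.H49R3.SC

open Set

/-- the key property at the whole group -/
def TopP (G : Type) [Group G] [TopologicalSpace G] : Prop :=
  ∀ (B : Type) [Group B] [Finite B] (N : Subgroup B) [N.Normal] (ψ : G →* B),
    IsOpen (ψ.ker : Set G) → (∀ b, ∃ u, (ψ u)⁻¹ * b ∈ N) →
    ∃ n₀ : ℕ, ∀ n ≥ n₀, ∃ V : Subgroup G, SymStep ⊤ V n ∧ ∃ θ : G → B, HomOn V θ ∧
      IsOpen {u | u ∈ V ∧ θ u = 1} ∧ (∀ b, ∃ v ∈ V, θ v = b) ∧ ∀ v ∈ V, (ψ v)⁻¹ * θ v ∈ N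

theorem transfer {G G' : Type} [Group G] [TopologicalSpace G] [Group G'] [TopologicalSpace G']
    (c : G' →* G) (hinj : Function.Injective c) (hcont : Continuous c) (hopen : IsOpenMap c)
    (U : Subgroup G) (hU : c.range = U) (hT : TopP G')
    (B : Type) [Group B] [Finite B] (N : Subgroup B)
    [N.Normal] (ψ : G → B) (hψ : HomOn U ψ) (ho : IsOpen {u | u ∈ U ∧ ψ u = 1})
    (hw : ∀ b, ∃ u ∈ U, (ψ u)⁻¹ * b ∈ N) :
    ∃ n₀ : ℕ, ∀ n ≥ n₀, ∃ V : Subgroup G, SymStep U V n ∧ ∃ θ : G → B, HomOn V θ ∧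
      IsOpen {u | u ∈ V ∧ θ u = 1} ∧ (∀ b, ∃ v ∈ V, θ v = b) ∧
        ∀ v ∈ V, (ψ v)⁻¹ * θ v ∈ N := by
  have hcU : ∀ a, c a ∈ U := fun a => by rw [← hU]; exact ⟨a, rfl⟩
  have hUc : ∀ u ∈ U, ∃ a, c a = u := fun u hu => by rw [← hU] at hu; exact hu
  let ψ' : G' →* B := 
    { toFun := fun a => ψ (c a)
      map_one' := by rw [map_one]; exact hψ.one
      map_mul' := fun a b => by rw [map_mul]; exact hψ _ (hcU a) _ (hcU b) }
  have hψ' : ∀ a, ψ' a = ψ (c a) := fun a => rfl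
  obtain ⟨n₀, hn₀⟩ := hT B N ψ' (by
    have e1 : (ψ'.ker : Set G') = c ⁻¹' {u | u ∈ U ∧ ψ u = 1} := by
      ext a
      rw [SetLike.mem_coe, MonoidHom.mem_ker, mem_preimage, mem_ofPred_eq, hψ']
      exact ⟨fun h => ⟨hcU a, h⟩, fun h => h.2⟩
    rw [e1]
    exact ho.preimage hcont) (fun b => by
      obtain ⟨u, hu, hub⟩ := hw b
      obtain ⟨a, rfl⟩ := hUc u hu
      exact ⟨a, hub⟩)
  refine ⟨n₀, fun n hn => ?_⟩
  obtain ⟨V', ⟨p', hp1, hp2, hp3, j, hp4⟩, θ', hθ1, hθ2, hθ3, hθ4⟩ := hn₀ n hn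
  let E : G → G' := Function.invFun c
  have hE : ∀ a, E (c a) = a := Function.leftInverse_invFun hinj
  refine ⟨V'.map c, ⟨fun u => p' (E u), ?_, ?_, ?_, j, ?_⟩, fun u => θ' (E u), ?_, ?_, ?_, ?_⟩
  · intro u hu v hv
    obtain ⟨a, rfl⟩ := hUc u hu
    obtain ⟨b, rfl⟩ := hUc v hv
    simp only [← map_mul, hE]
    exact hp1 a (Subgroup.mem_top _) b (Subgroup.mem_top _)
  · have e1 : {u | u ∈ U ∧ p' (E u) = 1} =
        c '' {a | a ∈ (⊤ : Subgroup G') ∧ p' a = 1} := by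
      ext u
      rw [mem_ofPred_eq, mem_image]
      constructor
      · rintro ⟨h1, h2⟩
        obtain ⟨a, rfl⟩ := hUc u h1
        rw [hE] at h2
        exact ⟨a, ⟨Subgroup.mem_top _, h2⟩, rfl⟩
      · rintro ⟨a, ⟨-, h2⟩, rfl⟩
        exact ⟨hcU a, by rw [hE]; exact h2⟩
    rw [e1]
    exact hopen _ hp2
  · intro σ
    obtain ⟨a, -, ha⟩ := hp3 σ
    exact ⟨c a, hcU a, by simp only [hE]; exact ha⟩
  · intro u
    rw [Subgroup.mem_map]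
    constructor
    · rintro ⟨a, ha, rfl⟩
      refine ⟨hcU a, ?_⟩
      simp only [hE]
      exact ((hp4 a).1 ha).2
    · rintro ⟨h1, h2⟩
      obtain ⟨a, rfl⟩ := hUc u h1
      simp only [hE] at h2
      exact ⟨a, (hp4 a).2 ⟨Subgroup.mem_top _, h2⟩, rfl⟩
  · rintro _ ⟨a, ha, rfl⟩ _ ⟨b, hb, rfl⟩
    simp only [← map_mul, hE]
    exact hθ1 a ha b hb
  · have e1 : {u | u ∈ V'.map c ∧ θ' (E u) = 1} = c '' {a | a ∈ V' ∧ θ' a = 1} := by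
      ext u
      rw [mem_ofPred_eq, mem_image]
      constructor
      · rintro ⟨⟨a, ha, rfl⟩, h2⟩
        rw [hE] at h2
        exact ⟨a, ⟨ha, h2⟩, rfl⟩
      · rintro ⟨a, ⟨ha, h2⟩, rfl⟩
        exact ⟨⟨a, ha, rfl⟩, by rw [hE]; exact h2⟩
    rw [e1]
    exact hopen _ hθ2
  · intro b
    obtain ⟨a, ha, hab⟩ := hθ3 b
    exact ⟨c a, ⟨a, ha, rfl⟩, by simp only [hE]; exact hab⟩
  · rintro _ ⟨a, ha, rfl⟩
    simp only [hE]
    exact hθ4 a ha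

end Pool.Agent.H49R3.SC
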