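import Pool.Agent.H49R3.SC.Key3
import Pool.Agent.H49R3.SC.Trans

set_option autoImplicit false

namespace Pool.Agent.H49R3.SC

open Pool.Agent.H391R2.T4

section all

variable {K Ω : Type} [Field K] [CharZero K] [Field Ω] [Algebra K Ω] [IsAlgClosure K Ω]

omit [CharZero K] in
theorem topP_of (h0 : CharZero K) (hK : HilbField K) : TopP (Ω ≃ₐ[K] Ω) := by
  intro B _ _ N _ ψ ho hw
  exact key_top hK B N ψ ho hw

omit [CharZero K] in
theorem cont_restrict (T : IntermediateField K Ω) :
    Continuous (AlgEquiv.restrictScalarsHom K : (Ω ≃ₐ[T] Ω) →* (Ω ≃ₐ[K] Ω)) := by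
  have halg : Algebra.IsAlgebraic K Ω := IsAlgClosure.isAlgebraic
  have halg' : Algebra.IsAlgebraic T Ω := Algebra.IsAlgebraic.tower_top (K := K) T
  apply continuous_of_continuousAt_one _ (continuousAt_def.mpr _)
  intro Q hQ
  rw [map_one, krullTopology_mem_nhds_one_iff] at hQ
  obtain ⟨E, hE, hEQ⟩ := hQ
  let b := Module.finBasis K E
  have h1 : IsOpen (⋂ i, (MulAction.stabilizer (Ω ≃ₐ[T] Ω) ((b i : E) : Ω) :
      Set (Ω ≃ₐ[T] Ω))) :=
    isOpen_iInter_of_finite fun i => stabilizer_isOpen_of_isIntegral _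
  refine Filter.mem_of_superset (h1.mem_nhds ?_) ?_
  · rw [Set.mem_iInter]
    intro i
    exact Subgroup.one_mem _
  · intro σ hσ
    rw [Set.mem_iInter] at hσ
    apply hEQ
    rw [SetLike.mem_coe, IntermediateField.mem_fixingSubgroup_iff]
    intro x hx
    have h2 : (E.val.toLinearMap : E →ₗ[K] Ω) =
        ((AlgEquiv.restrictScalarsHom K σ).toLinearMap.comp E.val.toLinearMap) := by
      apply b.ext
      intro i
      exact (hσ i).symm
    exact (LinearMap.congr_fun h2 ⟨x, hx⟩).symm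

theorem key_all (hK : HilbField K) : KP (Ω ≃ₐ[K] Ω) := by
  intro U hU B _ _ N _ ψ hψ ho hw
  have hN : Normal K Ω := IsAlgClosure.normal K Ω
  have hgal : IsGalois K Ω := ⟨⟩
  have halg : Algebra.IsAlgebraic K Ω := IsAlgClosure.isAlgebraic
  have hac : IsAlgClosed Ω := IsAlgClosure.isAlgClosed K
  let T : IntermediateField K Ω := IntermediateField.fixedField U
  let Uc : ClosedSubgroup (Ω ≃ₐ[K] Ω) := ⟨U, U.isClosed_of_isOpen hU⟩
  have h1 : T.fixingSubgroup = U := InfiniteGalois.fixingSubgroup_fixedField Uc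
  have hfd : FiniteDimensional K T := by
    rw [← InfiniteGalois.isOpen_iff_finite]
    change IsOpen (T.fixingSubgroup : Set (Ω ≃ₐ[K] Ω))
    rw [h1]; exact hU
  have hT : HilbField T := Pool.Agent.H793R2.HilbFin.taskE2 K T hK
  have halg' : Algebra.IsAlgebraic T Ω := Algebra.IsAlgebraic.tower_top (K := K) T
  have hac' : IsAlgClosure T Ω := ⟨hac, halg'⟩
  have hN' : Normal T Ω := IsAlgClosure.normal T Ω
  have hgal' : IsGalois T Ω := ⟨⟩
  have hcT : CharZero T := inferInstance
  let c : (Ω ≃ₐ[T] Ω) →* (Ω ≃ₐ[K] Ω) := AlgEquiv.restrictScalarsHom K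
  have hcinj : Function.Injective c := AlgEquiv.restrictScalarsHom_injective (R := K)
  have hccont : Continuous c := cont_restrict T
  have hrange : c.range = U := by
    rw [← h1]
    ext σ
    rw [IntermediateField.mem_fixingSubgroup_iff]
    constructor
    · rintro ⟨τ, rfl⟩ x hx
      exact τ.commutes ⟨x, hx⟩
    · intro h
      exact ⟨AlgEquiv.ofRingEquiv (f := (σ : Ω ≃+* Ω)) (fun x => h x x.2), by ext x; rfl⟩
  have hcomp : CompactSpace (Ω ≃ₐ[T] Ω) := inferInstance
  have ht2 : T2Space (Ω ≃ₐ[K] Ω) := krullTopology_t2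
  have hemb : Topology.IsClosedEmbedding c := hccont.isClosedEmbedding hcinj
  have hoe : Topology.IsOpenEmbedding c := ⟨hemb.isEmbedding, by
    have h2 : Set.range c = (U : Set (Ω ≃ₐ[K] Ω)) := by rw [← hrange]; rfl
    rw [h2]; exact hU⟩
  exact transfer c hcinj hccont hoe.isOpenMap U hrange (topP_of hcT hT) B N ψ hψ ho hw

end all

end Pool.Agent.H49R3.SC
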