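import Pool.Agent.H49R3.SC.Key4

set_option autoImplicit false

namespace Pool.Agent.H49R3.SC

open Pool.Agent.H391R2.T4

section main

variable {K Ω : Type} [Field K] [CharZero K] [Field Ω] [Algebra K Ω] [IsAlgClosure K Ω]

/-- finite normal subextensions -/
def FinNormal (K Ω : Type) [Field K] [Field Ω] [Algebra K Ω] : Type :=
  {E : IntermediateField K Ω // FiniteDimensional K E ∧ Normal K E}

omit [CharZero K] [IsAlgClosure K Ω] in
theorem finNormal_countable [Countable Ω] : Countable (FinNormal K Ω) := by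
  classical
  have h1 : ∀ E : FinNormal K Ω, ∃ s : Finset Ω, IntermediateField.adjoin K (s : Set Ω) = E.1 := by
    intro E
    have h2 := E.2.1
    have h3 : Algebra.EssFiniteType K E.1 := inferInstance
    exact IntermediateField.essFiniteType_iff.1 h3
  choose s hs using h1
  have hinj : Function.Injective s := by
    intro E F h
    apply Subtype.ext
    rw [← hs E, ← hs F, h]
  exact hinj.countable

/-- The tower theorem for a countable Hilbertian field of characteristic zero. -/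
theorem tower_hilb [Countable Ω] (hK : HilbField K) (D : Set ℕ) (hD : D.Infinite)
    (W : Subgroup (Ω ≃ₐ[K] Ω)) (hWn : W.Normal) (hW : IsOpen (W : Set (Ω ≃ₐ[K] Ω))) :
    ∃ U : ℕ → Subgroup (Ω ≃ₐ[K] Ω), U 0 = ⊤ ∧ (∀ k, IsOpen (U k : Set (Ω ≃ₐ[K] Ω))) ∧
      (∀ k, ∃ n ∈ D, SymStep (U k) (U (k + 1)) n) ∧ (⨅ k, U k) ⊔ W = ⊤ ∧
      AllSolvable (⨅ k, U k : Subgroup (Ω ≃ₐ[K] Ω)) := by
  have hN : Normal K Ω := IsAlgClosure.normal K Ω
  have hgal : IsGalois K Ω := ⟨⟩
  have hc : Countable (FinNormal K Ω) := finNormal_countable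
  have hcomp : CompactSpace (Ω ≃ₐ[K] Ω) := inferInstance
  refine tower (fun E : FinNormal K Ω => E.1.fixingSubgroup) ?_ ?_ ?_ (key_all hK) D hD W hW
  · intro E
    have h2 := E.2.1
    exact IntermediateField.fixingSubgroup_isOpen E.1
  · intro E
    have h2 := E.2.2
    have h3 : IsGalois K E.1 := ⟨⟩
    exact (InfiniteGalois.normal_iff_isGalois E.1).2 h3
  · intro Q hQ h1
    obtain ⟨E, hE1, hE2, hE3⟩ :=
      (krullTopology_mem_nhds_one_iff_of_normal K Ω Q).1 (hQ.mem_nhds h1)
    exact ⟨⟨E, hE1, hE2⟩, hE3⟩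

end main

end Pool.Agent.H49R3.SC
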